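import Mathlib
import Pool.Agent.MP_475f46_co.H23.Third

set_option autoImplicit false

namespace Pool.Agent.Results.MP_475f46_co.RootedThird

open Pool.Agent.MP_475f46_co.H23

theorem result :
    ∀ (k : ℕ), 1 ≤ k →
    ∀ (V : Type) [Fintype V] (G : SimpleGraph V) (c : V → Fin k),
      Function.Surjective c →
      (∀ u v : V, G.Adj u v → c u ≠ c v) →
      (∀ i j : Fin k, i ≠ j →
        (G.induce ({v : V | c v = i ∨ c v = j} : Set V)).Connected) →
      ∀ t : Fin k → V, (∀ i : Fin k, c (t i) = i) →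
      ∃ (m : ℕ) (B : Fin m → Set V),
        k + 2 ≤ 3 * m ∧
        (∀ i : Fin m, (B i).Nonempty) ∧
        (∀ i : Fin m, (G.induce (B i)).Connected) ∧
        (∀ i j : Fin m, i ≠ j → Disjoint (B i) (B j)) ∧
        (∀ i j : Fin m, i ≠ j → ∃ u ∈ B i, ∃ v ∈ B j, G.Adj u v) ∧
        (∀ i : Fin m, ∃! j : Fin k, t j ∈ B i) := by
  intro k hk V _ G c _ hp hK t ht
  obtain ⟨F, hF, hc⟩ := third (G := G) (c := c) (t := t) hp hK ht k Finset.univ (by simp) hk
  have hne : ∀ i j : Fin F.card, i ≠ j → (F.equivFin.symm i).1 ≠ (F.equivFin.symm j).1 :=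
    fun i j hij h => hij (F.equivFin.symm.injective (Subtype.ext h))
  refine ⟨F.card, fun i => (F.equivFin.symm i).1, hc, fun i => ?_, fun i => ?_, fun i j hij => ?_,
    fun i j hij => ?_, fun i => ?_⟩
  · obtain ⟨j, hj, -⟩ := (hF.1 _ (F.equivFin.symm i).2).2.1
    exact ⟨_, hj⟩
  · exact (hF.1 _ (F.equivFin.symm i).2).1
  · exact (hF.2 _ (F.equivFin.symm i).2 _ (F.equivFin.symm j).2 (hne i j hij)).1
  · exact (hF.2 _ (F.equivFin.symm i).2 _ (F.equivFin.symm j).2 (hne i j hij)).2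
  · exact (hF.1 _ (F.equivFin.symm i).2).2.1

end Pool.Agent.Results.MP_475f46_co.RootedThird
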